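import Mathlib
import Pool.Agent.H458.Sp.Cubic

set_option autoImplicit false

/-!
# Sparse rational points on `X ^ 3 + Y ^ 3 = A`: an effective height bound and a uniform count

A rational point `(X, Y)` is `(r, B)`-sparse in base `b` if `X = u / w`, `Y = v / w` with integers
`u`, `v`, `w` which are combinations of the same `r` powers of `b` with integral coefficients of
absolute value at most `B`.

* All rational points of `X ^ 3 + Y ^ 3 = A` which are sparse in some base `b ≥ 2` have height at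
  most an explicit number depending on `|A|`, `r`, `B` only.  So they can be listed; if they
  generate the group of rational points, generators are found by a finite search.
* For every base `b` there are at most `(2 B + 1) ^ (3 r) ((4 ^ r)!) ^ 2` of them, uniformly
  in `A` and `b`.  So the number of generators is bounded uniformly in `A` if the group is
  generated by `(r, B)`-sparse points in some base.
-/

namespace Pool.Agent.Results.MP_8e0b0b_nt.SparsePointsCubic

open Pool.Agent.H458.Sp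

/-- the sparse integer with coefficients `c` and exponents `e` in base `b` -/
def sp {r : ℕ} (b : ℕ) (e : Fin r → ℕ) (c : Fin r → ℤ) : ℤ := ∑ j, c j * (b : ℤ) ^ (e j)

/-- the coordinates of `q` are quotients, with a common denominator, of combinations of the same
`r` powers of `b` with integral coefficients of absolute value at most `B` -/
def Sparse (r B b : ℕ) (q : ℚ × ℚ) : Prop :=
  ∃ (e : Fin r → ℕ) (c : Fin 3 → Fin r → ℤ), (∀ i j, |c i j| ≤ B) ∧ sp b e (c 0) ≠ 0 ∧
    q.1 = (sp b e (c 1) : ℚ) / sp b e (c 0) ∧ q.2 = (sp b e (c 2) : ℚ) / sp b e (c 0)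

/-- the height of a rational number -/
def ht (x : ℚ) : ℕ := max x.num.natAbs x.den

/-- the bound for the heights, `a = |A|` -/
def hb (r B a : ℕ) : ℕ := r * B * ((a + 3) * (r * B) ^ 3) ^ (4 * 12 ^ r)

/-- the bound for the number of points -/
def nb (r B : ℕ) : ℕ := (2 * B + 1) ^ (3 * r) * (Nat.factorial (4 ^ r)) ^ 2

open MvPolynomial in
/-- the cubic form -/
noncomputable def form (A : ℤ) : MvPolynomial (Fin 3) ℤ := X 1 ^ 3 + X 2 ^ 3 - C A * X 0 ^ 3

open MvPolynomial in
theorem form_homog (A : ℤ) : (form A).IsHomogeneous 3 := by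
  unfold form
  refine IsHomogeneous.sub (IsHomogeneous.add (isHomogeneous_X_pow _ _)
    (isHomogeneous_X_pow _ _)) ?_
  have h1 := (isHomogeneous_C (Fin 3) A).mul (isHomogeneous_X_pow (R := ℤ) (0 : Fin 3) 3)
  rwa [zero_add] at h1

open MvPolynomial in
theorem form_nz (A : ℤ) : nz (form A) ≤ A.natAbs + 2 := by
  unfold form
  have hX : ∀ i : Fin 3, nz (X i ^ 3 : MvPolynomial (Fin 3) ℤ) ≤ 1 := by
    intro i
    have h1 : nz (X i : MvPolynomial (Fin 3) ℤ) ≤ 1 := by
      have h := nz_monomial (Finsupp.single i 1) (1 : ℤ)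
      rw [abs_one] at h
      exact h
    have := nz_pow (X i : MvPolynomial (Fin 3) ℤ) 1 h1 3
    rwa [one_pow] at this
  have hC : nz (C A : MvPolynomial (Fin 3) ℤ) ≤ |A| := nz_monomial 0 _
  have h1 : nz (C A * X 0 ^ 3 : MvPolynomial (Fin 3) ℤ) ≤ |A| * 1 :=
    (nz_mul _ _).trans (mul_le_mul hC (hX 0) (nz_nonneg _) (abs_nonneg _))
  have h2 := nz_add (X 1 ^ 3 : MvPolynomial (Fin 3) ℤ) (X 2 ^ 3)
  have h3 : nz (X 1 ^ 3 + X 2 ^ 3 - C A * X 0 ^ 3 : MvPolynomial (Fin 3) ℤ) ≤
      nz (X 1 ^ 3 + X 2 ^ 3 : MvPolynomial (Fin 3) ℤ) +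
        nz (C A * X 0 ^ 3 : MvPolynomial (Fin 3) ℤ) := by
    rw [sub_eq_add_neg]
    refine (nz_add _ _).trans ?_
    rw [nz_neg]
  have h4 := hX 1
  have h5 := hX 2
  rw [Int.abs_eq_natAbs] at h1
  linarith

open MvPolynomial in
theorem form_eval (A : ℤ) (z : Fin 3 → ℤ) : eval z (form A) = z 1 ^ 3 + z 2 ^ 3 - A * z 0 ^ 3 := by
  unfold form
  simp

open MvPolynomial in
theorem form_aeval (A : ℤ) (p : Fin 3 → Polynomial ℤ) :
    aeval p (form A) = p 1 ^ 3 + p 2 ^ 3 - Polynomial.C A * p 0 ^ 3 := by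
  unfold form
  simp only [map_sub, map_add, map_mul, map_pow, aeval_X, aeval_C]
  rfl

/-- the integral equation of a sparse point -/
theorem int_eq (A : ℤ) (q : ℚ × ℚ) (hq : q.1 ^ 3 + q.2 ^ 3 = A) (z : Fin 3 → ℤ) (h0 : z 0 ≠ 0)
    (h1 : q.1 = (z 1 : ℚ) / z 0) (h2 : q.2 = (z 2 : ℚ) / z 0) :
    z 1 ^ 3 + z 2 ^ 3 - A * z 0 ^ 3 = 0 := by
  have h0Q : (z 0 : ℚ) ≠ 0 := by exact_mod_cast h0
  rw [h1, h2] at hq
  field_simp at hq
  have h3 : z 1 ^ 3 + z 2 ^ 3 = z 0 ^ 3 * A := by exact_mod_cast hq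
  rw [h3]
  ring

theorem pos_of_sparse {r B b : ℕ} {e : Fin r → ℕ} {c : Fin r → ℤ} (hc : ∀ j, |c j| ≤ B)
    (h : sp b e c ≠ 0) : 1 ≤ r * B := by
  by_contra hcon
  apply h
  unfold sp
  rcases Nat.mul_eq_zero.1 (show r * B = 0 by omega) with h | h
  · subst h
    simp
  · have h1 : ∀ j, c j = 0 := fun j => by
      have := hc j
      rw [h] at this
      exact abs_eq_zero.1 (le_antisymm (by simpa using this) (abs_nonneg _))
    simp [h1]

theorem heights (A : ℤ) (hA : A ≠ 0) (r B b : ℕ) (hb2 : 2 ≤ b) (q : ℚ × ℚ)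
    (hq : q.1 ^ 3 + q.2 ^ 3 = A) (hs : Sparse r B b q) :
    ht q.1 ≤ hb r B A.natAbs ∧ ht q.2 ≤ hb r B A.natAbs := by
  obtain ⟨e, c, hc, h0, h1, h2⟩ := hs
  set z : Fin 3 → ℤ := fun i => sp b e (c i) with hz
  have hrB := pos_of_sparse (hc 0) h0
  obtain ⟨p, hp1, hp2, hp3⟩ := param {form A} 3 (by norm_num) (A.natAbs + 2) (by omega) (by
    rintro F rfl
    exact (form_homog A).totalDegree_le) (by
    rintro F rfl
    exact_mod_cast form_nz A) b hb2 B hrB e c hc z (fun i => rfl) (by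
    rintro F rfl
    rw [form_eval]
    exact int_eq A q hq z h0 h1 h2)
  have hpe := hp1 _ rfl
  rw [form_aeval] at hpe
  have hp00 : p 0 ≠ 0 := by
    intro h
    have := hp2 0
    rw [h, Polynomial.eval_zero] at this
    exact h0 this.symm
  obtain ⟨k1, k2⟩ := cubic_const A hA (p 0) (p 1) (p 2) hp00 (_root_.sub_eq_zero.1 hpe) (b : ℤ)
  rw [hp2, hp2] at k1 k2
  obtain ⟨k, hk⟩ : ∃ k, (p 0).coeff k ≠ 0 := by
    by_contra hcon
    push Not at hcon
    exact hp00 (Polynomial.ext fun k => by rw [hcon k, Polynomial.coeff_zero])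
  have hM : ∀ i k, |(p i).coeff k| ≤ ((hb r B A.natAbs : ℕ) : ℤ) := by
    intro i k
    have h4 := hp3 i k
    have h5 : 1 + (A.natAbs + 2) = A.natAbs + 3 := by omega
    rw [h5] at h4
    exact h4
  have key : ∀ (i : Fin 3), Polynomial.C (z 0) * p i = Polynomial.C (z i) * p 0 →
      ht ((z i : ℚ) / z 0) ≤ hb r B A.natAbs := by
    intro i hi
    have h3 : z 0 * (p i).coeff k = z i * (p 0).coeff k := by
      have := congrArg (fun g => Polynomial.coeff g k) hi
      simpa only [Polynomial.coeff_C_mul] using this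
    have h0Q : (z 0 : ℚ) ≠ 0 := by exact_mod_cast h0
    have h3Q : (z 0 : ℚ) * (p i).coeff k = z i * (p 0).coeff k := by exact_mod_cast h3
    have h4 : ((p 0).coeff k : ℚ) * ((z i : ℚ) / z 0) = (p i).coeff k := by
      field_simp
      linarith
    show height _ ≤ _
    rw [height_le_iff]
    rcases lt_or_gt_of_ne hk with h9 | h9
    · refine ⟨-(p i).coeff k, -(p 0).coeff k, ?_, by omega, ?_, ?_⟩
      · rw [abs_neg]
        exact hM i k
      · exact (neg_le_abs _).trans (hM 0 k)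
      · push_cast
        linarith
    · exact ⟨(p i).coeff k, (p 0).coeff k, hM i k, by omega, (le_abs_self _).trans (hM 0 k), h4⟩
  rw [h1, h2]
  exact ⟨key 1 k1, key 2 k2⟩

theorem count (A : ℤ) (hA : A ≠ 0) (r B b : ℕ) (hb2 : 2 ≤ b) :
    {q : ℚ × ℚ | q.1 ^ 3 + q.2 ^ 3 = A ∧ Sparse r B b q}.encard ≤ (nb r B : ℕ∞) := by
  classical
  set P := form A with hP
  have hPh : P.IsHomogeneous 3 := form_homog A
  set I := Finset.Icc (-(B : ℤ)) B with hI
  set M := 4 ^ r with hM
  have hcol : ∀ c : Fin 3 → Fin r → ℤ,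
      ∃ col : ((Fin r →₀ ℕ) → ℕ) → Fin ((Nat.factorial M) ^ 2),
        ∀ x x' : (Fin r →₀ ℕ) → ℕ,
        ∑ α ∈ (MvPolynomial.bind₁ (fun i => li (c i)) P).support,
          MvPolynomial.coeff α (MvPolynomial.bind₁ (fun i => li (c i)) P) *
            (b : ℤ) ^ (x α) = 0 →
        ∑ α ∈ (MvPolynomial.bind₁ (fun i => li (c i)) P).support,
          MvPolynomial.coeff α (MvPolynomial.bind₁ (fun i => li (c i)) P) *
            (b : ℤ) ^ (x' α) = 0 → col x = col x' →
        ∀ v : ℤ, ∑ α ∈ (MvPolynomial.bind₁ (fun i => li (c i)) P).support.filter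
          (fun α => (x' α : ℤ) - x α = v),
          MvPolynomial.coeff α (MvPolynomial.bind₁ (fun i => li (c i)) P) *
            (b : ℤ) ^ (x α) = 0 := fun c =>
    coloring b hb2 M _ _ (bind_card c P 3 hPh)
  choose col hcol using hcol
  set S := {q : ℚ × ℚ | q.1 ^ 3 + q.2 ^ 3 = A ∧ Sparse r B b q} with hS
  have hex : ∀ q : S, ∃ w : (Fin r → ℕ) × (Fin 3 → Fin r → {z // z ∈ I}),
      sp b w.1 (fun j => (w.2 0 j).1) ≠ 0 ∧
      q.1.1 = (sp b w.1 (fun j => (w.2 1 j).1) : ℚ) / sp b w.1 (fun j => (w.2 0 j).1) ∧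
      q.1.2 = (sp b w.1 (fun j => (w.2 2 j).1) : ℚ) / sp b w.1 (fun j => (w.2 0 j).1) := by
    rintro ⟨q, hq1, e, c, hc, h0, hx, hy⟩
    refine ⟨(e, fun i j => ⟨c i j, ?_⟩), h0, hx, hy⟩
    rw [hI, Finset.mem_Icc]
    exact abs_le.1 (hc i j)
  choose w hw0 hwx hwy using hex
  have hzero : ∀ q : S, ∑ α ∈ (MvPolynomial.bind₁
      (fun i => li (fun j => ((w q).2 i j).1)) P).support,
      MvPolynomial.coeff α (MvPolynomial.bind₁ (fun i => li (fun j => ((w q).2 i j).1)) P) *
        (b : ℤ) ^ (exn (w q).1 α) = 0 := by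
    intro q
    have h1 : MvPolynomial.eval (fun j => (b : ℤ) ^ ((w q).1 j)) (MvPolynomial.bind₁
        (fun i => li (fun j => ((w q).2 i j).1)) P) = 0 := by
      have h2 : ∀ i, MvPolynomial.eval (fun j => (b : ℤ) ^ ((w q).1 j))
          (li (fun j => ((w q).2 i j).1)) = sp b (w q).1 (fun j => ((w q).2 i j).1) := by
        intro i
        rw [eval_li]
        exact Finset.sum_congr rfl fun j _ => mul_comm _ _
      rw [eval_bind]
      simp only [h2]
      rw [hP, form_eval]
      exact int_eq A q.1 q.2.1 (fun i => sp b (w q).1 (fun j => ((w q).2 i j).1)) (hw0 q)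
        (hwx q) (hwy q)
    rw [eval_powz] at h1
    rw [← h1]
    exact Finset.sum_congr rfl fun α _ => mul_comm _ _
  set F : S → (Fin 3 → Fin r → {z // z ∈ I}) × Fin ((Nat.factorial M) ^ 2) := fun q =>
    ((w q).2, col (fun i j => ((w q).2 i j).1) (fun α => exn (w q).1 α)) with hF
  have hinj : Function.Injective F := by
    intro q q' hqq
    rw [hF] at hqq
    simp only [Prod.mk.injEq] at hqq
    obtain ⟨hc, hcl⟩ := hqq
    have hz' := hzero q'
    rw [← hc] at hz' hcl
    have hcomp := hcol (fun i j => ((w q).2 i j).1) (fun α => exn (w q).1 α)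
      (fun α => exn (w q').1 α) (hzero q) hz' hcl
    obtain ⟨p, hp0, hp1, K, hpb⟩ := joined P 3 hPh b (fun i j => ((w q).2 i j).1)
      (w q).1 (w q').1 hcomp
    rw [hP, form_aeval] at hp0
    have h0s : (p 0).eval 1 ≠ 0 := by
      rw [hp1]
      exact hw0 q
    have hp00 : p 0 ≠ 0 := by
      intro h
      rw [h, Polynomial.eval_zero] at h0s
      exact h0s rfl
    have hbK : ((b : ℤ) ^ K) ≠ 0 := by
      have : (b : ℤ) ≠ 0 := by
        have : b ≠ 0 := by omega
        exact_mod_cast this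
      exact pow_ne_zero _ this
    have h0b : (p 0).eval (b : ℤ) ≠ 0 := by
      rw [hpb]
      refine mul_ne_zero hbK ?_
      have h2 := hw0 q'
      rw [← hc] at h2
      exact h2
    obtain ⟨k1, k2⟩ := cubic_const A hA (p 0) (p 1) (p 2) hp00 (_root_.sub_eq_zero.1 hp0) 1
    have key : ∀ i : Fin 3, Polynomial.C ((p 0).eval 1) * p i = Polynomial.C ((p i).eval 1) * p 0 →
        (sp b (w q).1 (fun j => ((w q).2 i j).1) : ℚ) / sp b (w q).1 (fun j => ((w q).2 0 j).1) =
        (sp b (w q').1 (fun j => ((w q).2 i j).1) : ℚ) /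
          sp b (w q').1 (fun j => ((w q).2 0 j).1) := by
      intro i hi
      have h1 := congrArg (Polynomial.eval (b : ℤ)) hi
      rw [Polynomial.eval_mul, Polynomial.eval_mul, Polynomial.eval_C, Polynomial.eval_C] at h1
      rw [hp1, hp1, hpb, hpb] at h1
      have h2 : sp b (w q).1 (fun j => ((w q).2 0 j).1) *
          sp b (w q').1 (fun j => ((w q).2 i j).1) =
          sp b (w q).1 (fun j => ((w q).2 i j).1) *
            sp b (w q').1 (fun j => ((w q).2 0 j).1) := by
        refine mul_left_cancel₀ hbK ?_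
        unfold sp
        linarith
      have h3 : (sp b (w q).1 (fun j => ((w q).2 0 j).1) : ℚ) ≠ 0 := by exact_mod_cast hw0 q
      have h4 : (sp b (w q').1 (fun j => ((w q).2 0 j).1) : ℚ) ≠ 0 := by
        have h5 := hw0 q'
        rw [← hc] at h5
        exact_mod_cast h5
      rw [div_eq_div_iff h3 h4]
      have h5 : ((sp b (w q).1 (fun j => ((w q).2 0 j).1) *
          sp b (w q').1 (fun j => ((w q).2 i j).1) : ℤ) : ℚ) =
          ((sp b (w q).1 (fun j => ((w q).2 i j).1) *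
            sp b (w q').1 (fun j => ((w q).2 0 j).1) : ℤ) : ℚ) := by rw [h2]
      push_cast at h5
      linarith
    refine Subtype.ext (Prod.ext ?_ ?_)
    · rw [hwx q, hwx q', ← hc]
      exact key 1 k1
    · rw [hwy q, hwy q', ← hc]
      exact key 2 k2
  have hfin : Finite S := Finite.of_injective F hinj
  have hcard : Nat.card S ≤ nb r B := by
    have h1 := Nat.card_le_card_of_injective F hinj
    refine h1.trans (le_of_eq ?_)
    rw [Nat.card_eq_fintype_card, Fintype.card_prod, Fintype.card_fin]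
    have h2 : Fintype.card (Fin 3 → Fin r → {z // z ∈ I}) = (2 * B + 1) ^ (3 * r) := by
      rw [Fintype.card_fun, Fintype.card_fun, Fintype.card_coe, Fintype.card_fin,
        Fintype.card_fin, hI, Int.card_Icc, ← pow_mul]
      congr 1
      · omega
      · ring
    rw [h2]
    rfl
  have hSfin : S.Finite := Set.toFinite S
  rw [← hSfin.cast_ncard_eq]
  have h3 : S.ncard ≤ nb r B := hcard
  exact_mod_cast h3

theorem result (A : ℤ) (hA : A ≠ 0) (r B : ℕ) :
    (∀ b : ℕ, 2 ≤ b → ∀ q : ℚ × ℚ, q.1 ^ 3 + q.2 ^ 3 = A → Sparse r B b q →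
      ht q.1 ≤ hb r B A.natAbs ∧ ht q.2 ≤ hb r B A.natAbs) ∧
    ∀ b : ℕ, 2 ≤ b →
      {q : ℚ × ℚ | q.1 ^ 3 + q.2 ^ 3 = A ∧ Sparse r B b q}.encard ≤ (nb r B : ℕ∞) :=
  ⟨fun b hb2 q hq hs => heights A hA r B b hb2 q hq hs, fun b hb2 => count A hA r B b hb2⟩

end Pool.Agent.Results.MP_8e0b0b_nt.SparsePointsCubic
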